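import Pool.Agent.Helper18.PS.St

/-! # Project PS (MP_4afa08_nt), module C3 -/

set_option autoImplicit false

namespace Pool.Agent.Helper40.PS

open Finset
open Nat (totient)
open Pool.Agent.Helper18.PS
open Pool.Agent.Helper30.LQ (StSMT)
open Pool.Agent.Helper94.DN (StRAN)

private theorem card_mult (x k : ℕ) :
    ((((Icc 1 x).filter fun n => k ∣ n).card : ℕ) : ℝ) ≤ (x : ℝ) / k := by
  have h1 : (Icc 1 x).filter (fun n => k ∣ n) = (Ioc 0 x).filter (fun n => k ∣ n) := by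
    ext n
    simp only [Finset.mem_filter, Finset.mem_Icc, Finset.mem_Ioc]
    constructor
    · rintro ⟨⟨h1, h2⟩, h3⟩
      exact ⟨⟨by omega, h2⟩, h3⟩
    · rintro ⟨⟨h1, h2⟩, h3⟩
      exact ⟨⟨by omega, h2⟩, h3⟩
  rw [h1, Nat.Ioc_filter_dvd_card_eq_div]
  exact Nat.cast_div_le

theorem hC3 (hR : StRAN) : StC3 := by
  classical
  intro y z L N hz hy
  set P : Finset ℕ := (Icc 1 N).filter
    (fun p => p.Prime ∧ y < p ∧ ∀ r : ℕ, r.Prime → r ∣ p + 1 → r ≤ z) with hP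
  have hcov : (Icc 1 N).filter (fun n => ∃ p : ℕ, p.Prime ∧ y < p ∧ p ∣ n ∧
      ∀ r : ℕ, r.Prime → r ∣ p + 1 → r ≤ z) ⊆
      P.biUnion (fun p => (Icc 1 N).filter fun n => p ∣ n) := by
    intro n hn
    obtain ⟨h1, p, hp, hyp, hpn, hr⟩ := Finset.mem_filter.1 hn
    have h2 := Finset.mem_Icc.1 h1
    have h3 : p ≤ n := Nat.le_of_dvd (by omega) hpn
    refine Finset.mem_biUnion.2 ⟨p, ?_, Finset.mem_filter.2 ⟨h1, hpn⟩⟩
    exact Finset.mem_filter.2 ⟨Finset.mem_Icc.2 ⟨hp.one_lt.le, by omega⟩, hp, hyp, hr⟩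
  have hc1 : (((Icc 1 N).filter (fun n => ∃ p : ℕ, p.Prime ∧ y < p ∧ p ∣ n ∧
      ∀ r : ℕ, r.Prime → r ∣ p + 1 → r ≤ z)).card : ℝ) ≤
      ∑ p ∈ P, (((Icc 1 N).filter fun n => p ∣ n).card : ℝ) := by
    have h4 := (Finset.card_le_card hcov).trans Finset.card_biUnion_le
    exact_mod_cast h4
  refine hc1.trans ?_
  have hran := hR (z + 1) L (P.image (fun p => p + 1)) (by omega) ?_
  · rw [Finset.sum_image (by intro a _ b _ hab; simpa using hab)] at hran
    have h5 : ∑ p ∈ P, (((Icc 1 N).filter fun n => p ∣ n).card : ℝ) ≤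
        ∑ p ∈ P, 2 * (N : ℝ) * ((1 : ℝ) / ((p + 1 : ℕ) : ℝ)) := by
      refine Finset.sum_le_sum fun p hp => ?_
      have hp1 : 1 ≤ p := (Finset.mem_Icc.1 (Finset.mem_filter.1 hp).1).1
      have hp2 : (1 : ℝ) ≤ (p : ℝ) := by exact_mod_cast hp1
      refine (card_mult N p).trans ?_
      have hN : (0 : ℝ) ≤ (N : ℝ) := Nat.cast_nonneg N
      rw [mul_one_div, div_le_div_iff₀ (by linarith) (by positivity)]
      push_cast
      nlinarith
    refine h5.trans ?_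
    rw [← Finset.mul_sum]
    refine mul_le_mul_of_nonneg_left ?_ (by positivity)
    have h6 : (((z + 1 : ℕ) : ℝ)) ^ 2 * (2 / 3) ^ L = ((z : ℝ) + 1) ^ 2 * (2 / 3) ^ L := by
      push_cast
      ring
    rw [← h6]
    exact hran
  · intro A hA
    obtain ⟨p, hp, rfl⟩ := Finset.mem_image.1 hA
    obtain ⟨h7, hpp, hyp, hr⟩ := Finset.mem_filter.1 hp
    exact ⟨by omega, fun l hl hd => by have := hr l hl hd; omega, by omega⟩

end Pool.Agent.Helper40.PS
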